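import Mathlib
import Pool.Agent.MP_36ae60_an.Final

set_option autoImplicit false

namespace Pool.Agent.Results.MP_36ae60_an.Restriction

open Pool.Agent.MP_36ae60_an

/-- The `L^p → L^2` restriction estimate for spheres of nonzero radius in even dimension over
finite fields of odd order, in the full conjectured range of exponents. -/
theorem result :
    ∀ d : ℕ, Even d → 3 ≤ d → ∀ p : ℝ, 1 ≤ p → p ≤ (2 * (d : ℝ) + 4) / ((d : ℝ) + 4) →
      ∃ C : ℝ, ∀ (F : Type) [Field F] [Fintype F] [DecidableEq F], Odd (Fintype.card F) →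
        ∀ χ : AddChar F ℂ, χ ≠ 1 → ∀ j : F, j ≠ 0 → ∀ g : (Fin d → F) → ℂ,
          Real.sqrt
              ((∑ x ∈ Finset.univ.filter (fun x : Fin d → F => ∑ i, x i ^ 2 = j),
                  ‖∑ m : Fin d → F, g m * χ (-(∑ i, m i * x i))‖ ^ 2) /
                ((Finset.univ.filter (fun x : Fin d → F => ∑ i, x i ^ 2 = j)).card : ℝ))
            ≤ C * (∑ m : Fin d → F, ‖g m‖ ^ p) ^ (1 / p) := by
  intro d hd h3 p hp1 hp
  obtain ⟨n, hn, rfl⟩ : ∃ n, 1 ≤ n ∧ d = 2 * n + 2 := by
    obtain ⟨k, hk⟩ := hd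
    exact ⟨k - 1, by omega, by omega⟩
  refine ⟨8 * √((4 * 8 ^ n) * (1 + 4 ^ (n + 1))) + √2, ?_⟩
  intro F _ _ _ hodd χ hχ j hj g
  have hodd' : Fintype.card F % 2 = 1 := Nat.odd_iff.mp hodd
  have h2 : (2 : F) ≠ 0 := by
    apply Ring.two_ne_zero
    intro h
    have := FiniteField.even_card_iff_char_two.mp h
    omega
  let B : (Fin (2 * n + 2) → F) →ₗ[F] (Fin (2 * n + 2) → F) →ₗ[F] F :=
    LinearMap.mk₂ F (fun x y => ∑ i, x i * y i)
      (fun x x' y => by simp [add_mul, Finset.sum_add_distrib])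
      (fun c x y => by simp [Finset.mul_sum, mul_assoc])
      (fun x y y' => by simp [mul_add, Finset.sum_add_distrib])
      (fun c x y => by simp [Finset.mul_sum, mul_left_comm])
  have hB : ∀ x y, B x y = ∑ i, x i * y i := fun _ _ => rfl
  have hs : ∀ x y, B x y = B y x := by
    intro x y
    simp only [hB, mul_comm]
  have hnd : ∀ x, (∀ y, B x y = 0) → x = 0 := by
    intro x hx
    funext i
    have := hx (Pi.single i 1)
    simpa [hB, Pi.single_apply] using this
  have hp' : p ≤ (2 * (n : ℝ) + 4) / ((n : ℝ) + 3) := by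
    refine hp.trans (le_of_eq ?_)
    push_cast
    field_simp
    ring
  have := restriction hodd' h2 χ hχ j hj n hn B hs hnd (by simp) p hp1 hp' g
  simpa only [hB, ft, sq] using this

end Pool.Agent.Results.MP_36ae60_an.Restriction
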